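import Pool.Agent.Helper30.BG.Main
import Pool.Agent.Helper94.BG.MP
import Pool.Agent.Helper8.BG.PL
import Pool.Agent.Helper8.BG.BAR
import Pool.Agent.Helper89.BG.MV
import Pool.Agent.Helper87.BG.HARN
import Pool.Agent.Helper87.BG.N
import Pool.Agent.Helper13.BG.STRESS
import Pool.Agent.Helper19.BG.LEMS
import Pool.Agent.Helper49.BG.LIM
import Pool.Agent.Helper77.BG.BAL
import Pool.Agent.Helper61.BG.GFUN
import Pool.Agent.Helper61.BG.YSOL
import Pool.Agent.Helper67.BG.A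
import Pool.Agent.Helper31.BG.D
import Pool.Agent.Helper5.BG.C
import Pool.Agent.Helper16.BG.B0A
import Pool.Agent.Helper55.BG.B0S
import Pool.Agent.Helper42.BG.B0F
import Pool.Agent.Helper15.BG.SETUP

open InnerProductSpace
open scoped ContDiff Laplacian Gradient

namespace Pool.Agent.Helper30.BG

theorem hMP : S_MP := Pool.Agent.Helper94.BG.mp
theorem hPL : S_PL := Pool.Agent.Helper8.BG.pl hMP
theorem hBAR : S_BAR := Pool.Agent.Helper8.BG.bar hMP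
theorem hMV : S_MV := Pool.Agent.Helper89.BG.mv
theorem hHARN : S_HARN := Pool.Agent.Helper87.BG.harn hMV
theorem hLEMS : S_LEMS := Pool.Agent.Helper19.BG.lems hMP
theorem hSTRESS : S_STRESS := Pool.Agent.Helper13.BG.stress
theorem hLIM : S_LIM := Pool.Agent.Helper49.BG.lim hHARN
theorem hBAL : S_BAL := Pool.Agent.Helper77.BG.bal hSTRESS hLIM
theorem hGFUN : S_GFUN := Pool.Agent.Helper61.BG.gfun
theorem hYSOL : S_YSOL := Pool.Agent.Helper61.BG.ysol hGFUN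
theorem hA : S_A := Pool.Agent.Helper67.BG.a hBAR hHARN
theorem hD : S_D := Pool.Agent.Helper31.BG.d hPL hA
theorem hN : S_N := Pool.Agent.Helper87.BG.n hMP hA hD
theorem hC : S_C := Pool.Agent.Helper5.BG.c hBAR hA hN
theorem hB0A : S_B0A := Pool.Agent.Helper16.BG.b0a
theorem hB0S : S_B0S := Pool.Agent.Helper55.BG.b0s hMP
theorem hB0F : S_B0F := Pool.Agent.Helper42.BG.b0f hB0A hB0S hPL
theorem hSETUP : S_SETUP := Pool.Agent.Helper15.BG.setup hLEMS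

/-- The theorem of project BG. -/
theorem fin {f : ℝ → ℝ} {u : E3 → ℝ} (hf : ContDiff ℝ 1 f) (hc : HasCompactSupport f)
    (h0 : ∀ v, 0 ≤ f v) (hu : ContDiff ℝ 2 u) (heq : ∀ x, Δ u x = f (u x))
    (hK : ∃ K : ℝ, ∀ x, ‖∇ u x‖ ≤ K) (hneg : ∀ x : E3, x 0 ≤ 0 → u x ≤ 0)
    (halt : (∀ v, v ≤ 0 → f v = 0) ∨ ∃ b : ℝ, 0 < b ∧ ∀ x : E3, x 0 ≤ 0 → u x ≤ b * x 0) :
    ∃ V : ℝ → ℝ, ContDiff ℝ 2 V ∧ (∀ s, deriv (deriv V) s = f (V s)) ∧
      (StrictMono V ∨ ∃ c, ∀ s, V s = c) ∧ ∀ x, u x = V (x 0) :=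
  mainFull hPL hHARN hSETUP hBAL hB0F hYSOL hC hf hc h0 hu heq hK hneg halt

end Pool.Agent.Helper30.BG
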