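import Pool.Agent.Helper30.BG.Lap

/-!
# Project BG (MP_66e6f4_an): rigidity in the class of bounded gradient. Packets.

THEOREM.  `f ∈ C¹_c(ℝ)`, `f ≥ 0`, `u ∈ C²(ℝ³)`, `Δ u = f(u)`, `∇ u` bounded, `u ≤ 0` on
`{x₀ ≤ 0}`, `u > 0` somewhere, and (`f = 0` on `(-∞, 0]` or `u ≤ b x₀` on `{x₀ ≤ 0}` for a `b > 0`).
Then `u x = V (x 0)` with `V ∈ C²`, `V'' = f(V)`, `V` strictly increasing.

Coordinates are `x 0, x 1, x 2` (the distinguished one is `x 0`).  `pd i v x` is the partial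
derivative, `Δ` Mathlib's Laplacian.  `Pool/Agent/Helper30/BG/Lap.lean` has the calculus: the
structure `HD2 v x p l` (`v` is `C²` at `x`, with partials `p` and Laplacian `l`) with closure rules
`HD2.const, coord, add, sub, neg, const_mul, add_const, sub_const, mul, comp (chain rule), affine,
reflect, normSq, newton (1/|y-c|), expCoord, pbar (polynomial barrier)`.

Write `L = Δ + 2 g ∂₀`.  Every packet is `theorem xxx : S_XXX`, or `(h : S_YYY) → S_XXX` where the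
docstring says that `S_YYY` may be used.
-/

open InnerProductSpace Metric Set Filter Topology MeasureTheory
open scoped ContDiff Laplacian

namespace Pool.Agent.Helper30.BG

/-- `F(v) = ∫_{a0}^v f`. With `f = 0` on `(-∞, a0]` this is the integral from `-∞`. -/
noncomputable def Fp (f : ℝ → ℝ) (a0 v : ℝ) : ℝ := ∫ t in a0..v, f t

/-- the nonlinearity -/
structure Nonl (f : ℝ → ℝ) (a0 a1 : ℝ) : Prop where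
  cd : ContDiff ℝ 1 f
  nn : ∀ v, 0 ≤ f v
  lo : ∀ v, v ≤ a0 → f v = 0
  hi : ∀ v, a1 ≤ v → f v = 0
  lt : a0 < a1

/-- the solution, with its two slopes `α` (at `+∞`) and `β` (at `-∞`) -/
structure Sol (f : ℝ → ℝ) (u : E3 → ℝ) (a0 a1 α β K : ℝ) : Prop where
  nl : Nonl f a0 a1
  cd : ContDiff ℝ 2 u
  eq : ∀ x, Δ u x = f (u x)
  lip : ∀ x y, |u x - u y| ≤ K * ‖x - y‖
  K_pos : 0 < K
  α_pos : 0 < α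
  β_nn : 0 ≤ β
  up : ∀ x : E3, 0 ≤ x 0 → u x ≤ α * x 0
  dn : ∀ x : E3, x 0 ≤ 0 → u x ≤ β * x 0
  subp : ∀ δ : ℝ, 0 < δ → ∃ R : ℝ, ∀ x : E3, 0 ≤ x 0 → R ≤ ‖x‖ → α * x 0 - u x ≤ δ * ‖x‖
  subm : ∀ δ : ℝ, 0 < δ → ∃ R : ℝ, ∀ x : E3, x 0 ≤ 0 → R ≤ ‖x‖ → β * x 0 - u x ≤ δ * ‖x‖
  alt : 0 < β ∨ ∀ v, v ≤ 0 → f v = 0

/-- the hodograph variable `Y = x₀ - G(u) - inf` -/
structure YSol (u Y g : E3 → ℝ) (a0 a1 α β κp κm M : ℝ) : Prop where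
  cdu : ContDiff ℝ 2 u
  cd : ContDiff ℝ 2 Y
  nn : ∀ x, 0 ≤ Y x
  inf : ∀ ε : ℝ, 0 < ε → ∃ x, Y x < ε
  lin : ∃ C : ℝ, 0 ≤ C ∧ ∀ x, Y x ≤ C * (1 + ‖x‖)
  g0 : ∀ x, 0 ≤ g x
  gM : ∀ x, g x ≤ M
  eq : ∀ x, Δ Y x + 2 * g x * pd 0 Y x = g x * ∑ i, pd i Y x ^ 2
  gup : ∀ x, a1 ≤ u x → g x = 0
  gdn : ∀ x, u x ≤ a0 → g x = 0
  lapu : ∀ x, 0 ≤ Δ u x
  lapu_dn : ∀ x, u x ≤ a0 → Δ u x = 0
  Yup : ∀ x, α * x 0 - u x + κp ≤ α * Y x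
  Ydn : ∀ x, u x ≤ a0 → β * Y x = β * x 0 - u x + κm
  α_pos : 0 < α
  β_pos : 0 < β
  up : ∀ x : E3, 0 ≤ x 0 → u x ≤ α * x 0
  dn : ∀ x : E3, x 0 ≤ 0 → u x ≤ β * x 0
  subp : ∀ δ : ℝ, 0 < δ → ∃ R : ℝ, ∀ x : E3, 0 ≤ x 0 → R ≤ ‖x‖ → α * x 0 - u x ≤ δ * ‖x‖
  subm : ∀ δ : ℝ, 0 < δ → ∃ R : ℝ, ∀ x : E3, x 0 ≤ 0 → R ≤ ‖x‖ → β * x 0 - u x ≤ δ * ‖x‖

/-! ## General tools -/

/-- **Packet MP** (0.7h): maximum principle for `L`.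

Proof.  Suppose `v x* < 0`, `x* ∈ closure Ω`.  `closure Ω` is compact.  `Λ := 2 max(M,0) + 1`,
`A ≥ exp(Λ y₀)` on `closure Ω`.  For `ε > 0` with `ε A < - v x*` let
`w y = v y + ε (A - exp(Λ y₀))`; `w x* < 0`, `w ≥ 0` on the frontier, so the minimum of `w` over
the compact `closure Ω` is at `m ∈ closure Ω \ frontier Ω = interior Ω = Ω`.  There `pd 0 w m = 0`
(`IsLocalMin.fderiv_eq_zero`) and `0 ≤ Δ w m` (`lap_eq`, and for every `i` the one-variable function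
`t ↦ w (m + t • eb i)` has a local minimum at `0`, so its second derivative is `≥ 0`).  But
`L w m = L v m - ε Λ (Λ + 2 g) exp(Λ m₀) < 0` (`HD2.expCoord`).  Contradiction. -/
def S_MP : Prop := ∀ (Ω : Set E3) (v g : E3 → ℝ) (M : ℝ), IsOpen Ω → Bornology.IsBounded Ω →
  ContinuousOn v (closure Ω) → (∀ x ∈ Ω, ContDiffAt ℝ 2 v x) → (∀ x ∈ Ω, |g x| ≤ M) →
  (∀ x ∈ Ω, Δ v x + 2 * g x * pd 0 v x ≤ 0) → (∀ x ∈ frontier Ω, 0 ≤ v x) →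
  ∀ x ∈ closure Ω, 0 ≤ v x

/-- **Packet BAR** (0.4h; may use `S_MP`): the Newton barrier.

Proof.  `Ω = ball x ρ \ closedBall x τ`, `c = κ/(1/τ - 1/ρ) ≥ 0`,
`v y = S y - c (‖y - x‖⁻¹ - ρ⁻¹)`.  `closure Ω ⊆ closedBall x ρ \ ball x τ`, frontier of `Ω`
inside `sphere x ρ ∪ sphere x τ`, where `v ≥ 0`.  In `Ω`, by `HD2.newton`,
`L v = L S + 2 g c (y₀ - x₀)/‖y - x‖³ ≤ 0`: if `y₀ ≤ x₀` the second term is `≤ 0`, if `y₀ > x₀`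
then `g y = 0`. -/
def S_BAR : Prop := ∀ (S g : E3 → ℝ) (M κ τ ρ : ℝ) (x : E3), 0 < τ → τ < ρ → 0 ≤ κ →
  ContDiff ℝ 2 S → (∀ y, 0 ≤ g y) → (∀ y, g y ≤ M) →
  (∀ y ∈ ball x ρ, x 0 < y 0 → g y = 0) →
  (∀ y ∈ ball x ρ, Δ S y + 2 * g y * pd 0 S y ≤ 0) →
  (∀ y ∈ closedBall x ρ, 0 ≤ S y) → (∀ y ∈ sphere x τ, κ ≤ S y) →
  ∀ y ∈ closedBall x ρ, τ ≤ ‖y - x‖ → κ * (‖y - x‖⁻¹ - ρ⁻¹) / (τ⁻¹ - ρ⁻¹) ≤ S y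

/-- **Packet PL** (0.6h; may use `S_MP` with `g = 0`): Phragmén–Lindelöf in a half-space.

Proof.  Fix `x`, `t₀ = x₀ - s ≥ 0`, and `δ > 0` with its `C ≥ 0`.  Let `q` be the projection of `x`
to the plane `{y₀ = s}`, `R > t₀`, `Ω = {y | s < y₀, ‖y - q‖ < R}`, and
`h y = (|y' - x'|² - 2 t² + 3 R t)/R²`, `t = y₀ - s` (compose `pbar` with `refl s`, or compute with
`HD2`; note `pbar T a b R` uses `t = T - y₀`): it is harmonic, `≥ 0` on the plane, and on the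
hemisphere `|y' - x'|² + t² = R²`, `0 ≤ t ≤ R`, it equals `1 + 3 t (R - t)/R² ≥ 1`.  Put
`N = δ (‖q‖ + R) + C + |m|`.  Then `W - m + N h ≥ 0` on the frontier of `Ω`, and superharmonic in
`Ω`, so `W x ≥ m - N h x ≥ m - 3 t₀ N/R`.  `R → ∞` gives `W x ≥ m - 3 t₀ δ`, then `δ → 0`. -/
def S_PL : Prop := ∀ (W : E3 → ℝ) (s m : ℝ), ContDiff ℝ 2 W → (∀ x : E3, s < x 0 → Δ W x ≤ 0) →
  (∀ x : E3, x 0 = s → m ≤ W x) →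
  (∀ δ : ℝ, 0 < δ → ∃ C : ℝ, ∀ x : E3, s ≤ x 0 → -(δ * ‖x‖) - C ≤ W x) →
  ∀ x : E3, s ≤ x 0 → m ≤ W x

/-- **Packet LEMS** (0.9h; may use `S_MP` with `g = 0`): sublinearity.

Proof.  We may enlarge `K` so that `K ≥ 1`, `K ≥ δ`.  Suppose the conclusion fails for `δ`: for
every `R` there is `z`, `z₀ ≥ 0`, `ρ := ‖z‖ ≥ R`, `w z > δ ρ`.  Let `r = δ ρ/(8 K) ≤ ρ/8`,
`c = z + 2 r • eb 0`.  On `closedBall c r`: `‖y - z‖ ≤ 3 r`, so `w y ≥ δ ρ - 3 r K ≥ δ ρ/2`, and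
`y₀ ≥ r > 0`.  Dipole `b y = (δ ρ/2) r (‖y - c‖⁻¹ - ‖y - c̄‖⁻¹)` with `c̄ = refl 0 c`.
For every `ε > 0`: `w + ε ≥ b` on `{y₀ ≥ 0} \ ball c r` (S_MP on
`Ω = {y₀ > 0} ∩ ball c T \ closedBall c r`, `T` large: on `{y₀ = 0}` `b = 0`; on the sphere of
radius `r`, `b ≤ δ ρ/2 ≤ w`; on the sphere of radius `T`, `b ≤ (δ ρ/2) r/T ≤ ε`).  Hence `w ≥ b`.
For `y₀ > 0`, `y ∉ ball c r`, `‖y‖ ≤ ρ`: `‖y - c‖, ‖y - c̄‖ ≤ 3 ρ`, so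
`‖y-c‖⁻¹ - ‖y-c̄‖⁻¹ = 4 y₀ c₀/(‖y-c‖ ‖y-c̄‖ (‖y-c‖ + ‖y-c̄‖)) ≥ 4 y₀ c₀/(54 ρ³)`, `c₀ ≥ 2 r`; so
`w y ≥ c y₀` with `c = δ³/(864 K²)`.  For `y ∈ ball c r`, `w y ≥ δ ρ/2 ≥ c ‖y‖`.  As `ρ` is
arbitrarily large, `w y ≥ c y₀` for all `y` with `y₀ ≥ 0`: contradiction to the hypothesis. -/
def S_LEMS : Prop := ∀ (w : E3 → ℝ) (K : ℝ), ContDiff ℝ 2 w →
  (∀ x y, |w x - w y| ≤ K * ‖x - y‖) → (∀ x : E3, 0 < x 0 → Δ w x ≤ 0) →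
  (∀ x : E3, 0 ≤ x 0 → 0 ≤ w x) → (¬ ∃ c : ℝ, 0 < c ∧ ∀ x : E3, 0 ≤ x 0 → c * x 0 ≤ w x) →
  ∀ δ : ℝ, 0 < δ → ∃ R : ℝ, ∀ x : E3, 0 ≤ x 0 → R ≤ ‖x‖ → w x ≤ δ * ‖x‖

/-- **Packet MV** (1.3h): mean value property with the kernel `ψ = c (1 - |z|²)₊²`.

Proof.  `ψ z = c (max 0 (1 - ‖z‖²))²` with `c > 0` normalising, and
`Ψ z = -(c/6) (max 0 (1 - ‖z‖²))³`, so that `pd i Ψ z = ψ z * z i`; both are `C¹` with compact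
support.  For `w` globally `C²` let `φ(s) = ∫ ψ z * w (x + s • z)`.  Then (differentiation under the
integral, compact support, e.g. `hasDerivAt_integral_of_dominated_loc_of_deriv_le`)
`φ'(s) = ∫ ψ z * ∑ i, pd i w (x + s z) * z i = ∑ i ∫ pd i w (x + s z) * pd i Ψ z
= - s ∫ Δ w (x + s z) * Ψ z` (integration by parts in each coordinate,
`integral_mul_fderiv_eq_neg_fderiv_mul_of_integrable` or its relatives; `Ψ` has compact support),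
which vanishes for `0 ≤ s ≤ r`: `Ψ z = 0` if `‖z‖ ≥ 1`, and `Δ w (x + s z) = 0` if `‖z‖ < 1`.
So `φ r = φ 0 = w x`. -/
def S_MV : Prop := ∃ ψ : E3 → ℝ, ContDiff ℝ 1 ψ ∧ HasCompactSupport ψ ∧ (∀ z, 0 ≤ ψ z) ∧
  (∀ z, 1 ≤ ‖z‖ → ψ z = 0) ∧ (∀ z, ‖z‖ < 1 → 0 < ψ z) ∧ ∫ z, ψ z = 1 ∧
  ∀ (w : E3 → ℝ) (x : E3) (r : ℝ), 0 < r → ContDiff ℝ 2 w → (∀ y ∈ ball x r, Δ w y = 0) →
    w x = ∫ z, ψ z * w (x + r • z)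

/-- **Packet HARN** (0.9h; may use `S_MV`): Harnack inequality and gradient estimate for positive
harmonic functions.

Proof.  Substituting `ζ = x + r z`: `w x = ∫ w ζ * ψ((ζ - x)/r) / r³`.
(1) For `y ∈ closedBall x (r/4)`: use radius `r/4` at `x` and `3r/4` at `y`; for `‖ζ - x‖ ≤ r/4` one
has `‖ζ - y‖/(3r/4) ≤ 2/3`, so `ψ(4(ζ-x)/r) (4/r)³ ≤ C ψ(4(ζ-y)/(3r)) (4/(3r))³` with
`C = 27 max ψ/min_{closedBall 0 (2/3)} ψ`; integrate against `w ≥ 0` (on `ball x r`).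
(2) `|w (x + h) - w x| ≤ ∫ w ζ |ψ(4(ζ-x-h)/r) - ψ(4(ζ-x)/r)| (4/r)³`, for `‖h‖ ≤ r/4` the
integrand is supported in `closedBall x (r/2)` and `|ψ(..) - ψ(..)| ≤ 4 Lip(ψ) ‖h‖/r ≤
C ‖h‖/r ψ((ζ - x)/r)`; so `|w (x + h) - w x| ≤ (C ‖h‖/r) w x`, hence `|pd i w x| ≤ C w x/r`
(`HasFDerivAt.le_of_lip'` or `norm_fderiv_le_of_lip'`). -/
def S_HARN : Prop := ∃ C : ℝ, 1 ≤ C ∧ ∀ (w : E3 → ℝ) (x : E3) (r : ℝ), 0 < r → ContDiff ℝ 2 w →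
  (∀ y ∈ ball x r, Δ w y = 0) → (∀ y ∈ ball x r, 0 ≤ w y) →
  (∀ y ∈ closedBall x (r / 4), w x ≤ C * w y) ∧ ∀ i, |pd i w x| ≤ C * w x / r

/-! ## Balance of the slopes -/

/-- **Packet STRESS** (1h): the stress tensor identity.

Proof.  First `R = 1`.  `T_j = ∂₀u ∂_j u - δ_{0j} (½ |∇u|² + F(u))` is `C¹` and
`∑ j ∂_j T_j = ∂₀u Δu + ∑_j ∂_j u ∂_j∂₀u - ∑_j ∂_j u ∂₀∂_j u - f(u) ∂₀u = 0` (symmetry of second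
derivatives: `ContDiffAt.isSymmSndFDerivAt` or `second_derivative_symmetric`).  Integration by parts
against `φ` (`C¹`, compact support) gives `∫ ∑_j T_j ∂_jφ = 0`.  General `R`: apply this to
`v ξ = u (R • ξ)/R`, `f_R t = R f(R t)`, `F_R t = F(R t)`: `Δ v = f_R(v)` by `HD2.affine`, and
`pd j v ξ = pd j u (R • ξ)`. -/
def S_STRESS : Prop := ∀ (f F : ℝ → ℝ) (u φ : E3 → ℝ), Continuous f →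
  (∀ t, HasDerivAt F (f t) t) → ContDiff ℝ 2 u → (∀ x, Δ u x = f (u x)) → ContDiff ℝ 1 φ →
  HasCompactSupport φ → ∀ R : ℝ, 0 < R →
  ∫ ξ, (pd 0 u (R • ξ) * ∑ j, pd j u (R • ξ) * pd j φ ξ -
    (1 / 2 * ∑ j, pd j u (R • ξ) ^ 2 + F (u (R • ξ))) * pd 0 φ ξ) = 0

/-- **Packet LIM** (0.8h; may use `S_HARN`): blow-down limits.

Proof.  Let `ξ₀ > 0`, `ρ = R ξ₀/2`.  For `y ∈ ball (R ξ) ρ`: `y₀ ≥ R ξ₀/2`, `R ξ₀/2 ≤ ‖y‖ ≤ 2 R ‖ξ‖`,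
so for `δ > 0` and `R` large (`subp`) `0 ≤ w y := α y₀ - u y ≤ 2 δ R ‖ξ‖`, and (fixed small `δ`)
`u y ≥ α R ξ₀/2 - 2 δ R‖ξ‖ ≥ a1`, so `Δ w y = - f (u y) = 0`.  `S_HARN`:
`|pd j w (R ξ)| ≤ C w(Rξ)/ρ ≤ C δ ‖ξ‖ R/(R ξ₀/2)`, which is small with `δ`.  And
`pd j w = α δ_{j0} - pd j u`.
Left side, `ξ₀ < 0`: the same with `w y = β y₀ - u y ≥ 0`; `f(u) = 0` in `ball (R ξ) (R |ξ₀|/2)`
because either `β > 0` and `u y ≤ β y₀ ≤ - β R |ξ₀|/2 ≤ a0` for `R` large, or `f = 0` on `(-∞, 0]`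
and `u y ≤ 0`.  `Fp f a0 (u (R ξ)) = 0`: if `u ≤ a0` clear; if `f = 0` on `(-∞, 0]` and
`v := u (Rξ) ≤ 0` then `f = 0` on the segment between `a0` and `v`. -/
def S_LIM : Prop := ∀ (f : ℝ → ℝ) (u : E3 → ℝ) (a0 a1 α β K : ℝ), Sol f u a0 a1 α β K →
  (∀ ξ : E3, 0 < ξ 0 → (∀ j, Tendsto (fun R : ℝ => pd j u (R • ξ)) atTop
      (𝓝 (if j = 0 then α else 0))) ∧ ∀ᶠ R : ℝ in atTop, a1 ≤ u (R • ξ)) ∧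
  (∀ ξ : E3, ξ 0 < 0 → (∀ j, Tendsto (fun R : ℝ => pd j u (R • ξ)) atTop
      (𝓝 (if j = 0 then β else 0))) ∧ ∀ᶠ R : ℝ in atTop, Fp f a0 (u (R • ξ)) = 0)

/-- **Packet BAL** (0.9h; may use `S_STRESS`, `S_LIM`): `α² = β² + 2 F(∞)`.

Proof.  `φ ξ = (max 0 (1 - ‖ξ‖²))²` (`C¹`), `pd 0 φ ξ = -4 ξ₀ max 0 (1 - ‖ξ‖²)`.  Let `R → ∞` in
`S_STRESS` with `F = Fp f a0` (dominated convergence: `|pd j u| ≤ K` by `Sol.lip`,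
`0 ≤ F ≤ F(a1)`, `φ` has compact support; the plane `{ξ₀ = 0}` is a null set): the integrand tends
to `(α²/2 - F(a1)) pd 0 φ ξ` for `ξ₀ > 0` (note `F v = F a1` for `v ≥ a1`) and to `β²/2 pd 0 φ ξ`
for `ξ₀ < 0`.  The reflection `refl 0` preserves the measure and changes the sign of `pd 0 φ`, so
`(α²/2 - F(a1) - β²/2) ∫_{ξ₀>0} pd 0 φ = 0`, and the last integral is `< 0`. -/
def S_BAL : Prop := ∀ (f : ℝ → ℝ) (u : E3 → ℝ) (a0 a1 α β K : ℝ), Sol f u a0 a1 α β K →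
  α ^ 2 = β ^ 2 + 2 * Fp f a0 a1

/-! ## The hodograph variable -/

/-- **Packet GFUN** (0.9h): one-variable analysis.

Proof.  `Γ v = √(β² + 2 F v)`, `F' = f` continuous and `F` monotone, `F = 0` on `(-∞, a0]`,
`F = F a1` on `[a1, ∞)`; `Γ' = f/Γ` continuous.  `G v = ∫_0^v 1/Γ`, `G' = 1/Γ` is `C¹`.  The
inequalities follow from `1/α ≤ 1/Γ ≤ 1/β`, with `Γ = α` on `[a1, ∞)` and `Γ = β` on `(-∞, a0]`.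
`G` is strictly increasing, continuous and onto (slope `≥ 1/α`), so it has an inverse `V`
(`StrictMono.orderIso`, `HasDerivAt.of_local_left_inverse`), `V' = Γ ∘ V`, `V'' = Γ'(V) Γ(V) =
f(V)`. -/
def S_GFUN : Prop := ∀ (f : ℝ → ℝ) (a0 a1 α β : ℝ), Nonl f a0 a1 → 0 < β → 0 < α →
  α ^ 2 = β ^ 2 + 2 * Fp f a0 a1 → ∃ Γ G V : ℝ → ℝ,
    (∀ v, β ≤ Γ v ∧ Γ v ≤ α) ∧ (∀ v, HasDerivAt Γ (f v / Γ v) v) ∧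
    ContDiff ℝ 2 G ∧ (∀ v, HasDerivAt G (1 / Γ v) v) ∧ G 0 = 0 ∧
    (∀ v, G v ≤ G a1 + (v - a1) / α) ∧ (∀ v, a1 ≤ v → G v = G a1 + (v - a1) / α) ∧
    (∀ v, G v ≤ G a0 + (v - a0) / β) ∧ (∀ v, v ≤ a0 → G v = G a0 + (v - a0) / β) ∧
    ContDiff ℝ 2 V ∧ (∀ s, HasDerivAt V (Γ (V s)) s) ∧ (∀ s, deriv (deriv V) s = f (V s)) ∧
    StrictMono V ∧ ∀ v, V (G v) = v

/-- **Packet YSOL** (0.9h; may use `S_GFUN`).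

Proof.  `z x = G (u x)`, `g x = f (u x)/Γ (u x)`.  By the chain rule (`HD2.comp` with
`φ = G, φ' = 1/Γ, φ'' = - f/Γ³`): `pd i z = pd i u/Γ(u)`,
`Δ z = f(u)/Γ(u) - f(u)/Γ(u)³ ∑ (pd i u)² = g (1 - ∑ (pd i z)²)`.  `Y₀ x = x₀ - z x`:
`pd i z = δ_{i0} - pd i Y₀`, `∑ (pd i z)² = 1 - 2 pd 0 Y₀ + ∑ (pd i Y₀)²`,
so `Δ Y₀ = - g (2 pd 0 Y₀ - ∑ (pd i Y₀)²)`: this is `eq`.
`Y₀` is bounded below: for `x₀ ≥ 0`, `G(u) ≤ G a1 + (u - a1)/α ≤ x₀ + const` as `u ≤ α x₀`; for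
`x₀ ≤ 0`, `G(u) ≤ G a0 + (u - a0)/β ≤ x₀ + const`.  `m₀ = inf Y₀`, `Y = Y₀ - m₀`.
`lin`: `G` is Lipschitz with constant `1/β`, `u` with constant `K`.
`Yup` with `κp = a1 - α G a1 - α m₀`, `Ydn` with `κm = a0 - β G a0 - β m₀`.  `g ≤ M`: `f` is
bounded (continuous, zero outside `[a0, a1]`), `Γ ≥ β`.  `u x = V (G (u x)) = V (x₀ - Y x - m₀)`. -/
def S_YSOL : Prop := ∀ (f : ℝ → ℝ) (u : E3 → ℝ) (a0 a1 α β K : ℝ), Sol f u a0 a1 α β K → 0 < β →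
  α ^ 2 = β ^ 2 + 2 * Fp f a0 a1 → ∃ (Y g : E3 → ℝ) (κp κm M m₀ : ℝ) (V : ℝ → ℝ),
    YSol u Y g a0 a1 α β κp κm M ∧ ContDiff ℝ 2 V ∧ (∀ s, deriv (deriv V) s = f (V s)) ∧
    StrictMono V ∧ ∀ x, u x = V (x 0 - Y x - m₀)

/-- **Packet A** (1h; may use `S_BAR`, `S_HARN`): `Y → 0` in cones around the `x₀` axis.

Proof.  We may assume `η ≤ 1`.  `C` from `S_HARN`, `λ = M + 1 > 0`, `S = 1 - exp(-λ Y)`: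
`L S = λ e^{-λY} (L Y - λ |∇Y|²) = λ e^{-λY} |∇Y|² (g - λ) ≤ 0` (`HD2.comp`).
`κ = 1 - exp(-λ ε/C) > 0`; choose `p` with `Y p` so small that `S p < κ η/32` (`S p ≤ λ Y p`).
Let `x₀ ≥ η ‖x‖`, `‖x‖ = ρ` large and suppose `Y x > ε`.  With `δ = α η/20` and `subp`:
every `y` with `y₀ ≥ η ρ/2`, `‖y‖ ≤ 5 ρ` has `u y ≥ α y₀ - 5 δ ρ ≥ α η ρ/4 ≥ a1`.  So
(i) `g y = 0` for `y ∈ ball x (4ρ)`, `y₀ > x₀`; (ii) `g = 0` on `ball x (ηρ/2)`, so `Δ Y = 0` there.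
Harnack on `ball x (ηρ/2)`: `Y y ≥ Y x/C > ε/C` on `closedBall x (ηρ/8)`, so `S ≥ κ` there.
`S_BAR` with radii `τ = ηρ/8`, `4ρ` at the point `p` (`ρ/2 ≤ ‖p - x‖ ≤ 3ρ/2` for `ρ ≥ 2‖p‖`):
`S p ≥ κ (2/(3ρ) - 1/(4ρ)) /(8/(ηρ)) ≥ κ η/32`: contradiction. -/
def S_A : Prop := ∀ (u Y g : E3 → ℝ) (a0 a1 α β κp κm M : ℝ), YSol u Y g a0 a1 α β κp κm M →
  ∀ η : ℝ, 0 < η → ∀ ε : ℝ, 0 < ε → ∃ r0 : ℝ, ∀ x : E3, η * ‖x‖ ≤ x 0 → r0 ≤ ‖x‖ → Y x ≤ ε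

/-- **Packet D** (0.8h; may use `S_PL`, `S_A`): `Y` is bounded in cones around the negative axis.

Proof.  `s = min 0 (a0/β)`, so `s ≤ 0`, `β s ≤ a0`.  `W x = α x₀ - u x - (β x̄₀ - u x̄)` with
`x̄ = refl s x`, `x̄₀ = 2 s - x₀`.  For `x₀ > s`: `x̄₀ < s ≤ 0`, `u x̄ ≤ β x̄₀ ≤ a0`, so
`Δ W x = - Δ u x + Δ u x̄ ≤ 0` (`HD2.reflect`, `lapu`, `lapu_dn`).  On the plane `x₀ = s`:
`W = (α - β) s =: m`.  For `x₀ ≥ s`: `α x₀ - u x ≥ α s` (`up` if `x₀ ≥ 0`; `u x ≤ 0` if `x₀ ≤ 0`),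
and `β x̄₀ - u x̄ ≤ δ ‖x̄‖ + C_δ` (`subm`; `u` is bounded on balls), `‖x̄‖ ≤ ‖x‖ + 2|s|`.  So `S_PL`:
`W ≥ m` on `{x₀ ≥ s}`.
Let `y₀ ≤ - η ‖y‖`, `‖y‖` large, `x = refl s y`: `x₀ = 2 s - y₀ ≥ s`, `‖x‖ ≤ 2 ‖y‖`,
`x₀ ≥ η‖y‖ - 2|s| ≥ (η/4) ‖x‖`, `‖x‖` large; `S_A` (with `η/4`, `ε = 1`): `Y x ≤ 1`, so by `Yup`
`α x₀ - u x ≤ α - κp`, so `β y₀ - u y ≤ α - κp - m`, and `u y ≤ β y₀ ≤ a0`, so by `Ydn`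
`β Y y ≤ α - κp - m + κm`. -/
def S_D : Prop := ∀ (u Y g : E3 → ℝ) (a0 a1 α β κp κm M : ℝ), YSol u Y g a0 a1 α β κp κm M →
  ∀ η : ℝ, 0 < η → ∃ C r0 : ℝ, ∀ x : E3, x 0 ≤ -(η * ‖x‖) → r0 ≤ ‖x‖ → Y x ≤ C

/-- **Packet N** (1h; may use `S_MP`, `S_A`, `S_D`): `Y` is bounded.

Proof.  `η = 1/120`; `r0, C` such that `Y x ≤ 1` if `x₀ ≥ η ‖x‖`, `‖x‖ ≥ r0` (`S_A`), and
`Y x ≤ C` if `x₀ ≤ -η ‖x‖`, `‖x‖ ≥ r0` (`S_D`), `C ≥ 1`.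
Near-plane step: let `r = ‖x‖` be large, `|x₀| ≤ η r`, and `0 ≤ b` with `Y ≤ b` on
`closedBall 0 (2r)`.  Then `Y x ≤ 1 + b/4`: let `T = 4 η r`, `q = (T, x₁, x₂)`, `R = r/2`,
`Ω = {y | y₀ < T, ‖y - q‖ < R}`, `h = pbar T (x 1) (x 2) R`, `t = T - y₀`,
`v = 1 + b h - Y`.  Frontier: on `y₀ = T`, `‖y - q‖ ≤ R`: `h ≥ 0`, `‖y‖ ≤ ‖q‖ + R ≤ 2 r`,
`y₀ = 4ηr ≥ η ‖y‖`, `‖y‖ ≥ 4ηr ≥ r0`, so `Y y ≤ 1`; on `‖y - q‖ = R`, `0 ≤ t ≤ R`: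
`h = 1 + 3 t (R - t)/R² ≥ 1`, `‖y‖ ≤ 2r`, so `Y y ≤ b ≤ b h`.  In `Ω`:
`L v = b · 2 g (4 t - 3 R)/R² - g |∇Y|² ≤ 0` because either `t ≤ 3R/4`, or `t > 3R/4` and then
`y₀ < T - 3R/4 ≤ - r/4`, `u y ≤ β y₀ ≤ a0` for `r` large and `g y = 0`.  `S_MP` gives `Y x ≤ 1 + b
h(x)`, `h(x) ≤ 3 t/R`, `t = T - x₀ ≤ 5 η r`, so `h(x) ≤ 30 η = 1/4`.
Iteration: for some `r1`: for `‖x‖ ≥ r1`, `Y x ≤ C + (1/4) sup_{‖y‖ ≤ 2‖x‖} Y`.  Choose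
`C'' ≥ 4 C/3`, `C'' ≥ Y` on `closedBall 0 r1`, and `c` with `Y x ≤ c (1 + ‖x‖)` (`lin`).  Induction
on `n`: `Y x ≤ C'' + 4^{-n} c (1 + 2^n ‖x‖)` for all `x`.  `n → ∞`: `Y ≤ C''`. -/
def S_N : Prop := ∀ (u Y g : E3 → ℝ) (a0 a1 α β κp κm M : ℝ), YSol u Y g a0 a1 α β κp κm M →
  ∃ C : ℝ, ∀ x, Y x ≤ C

/-- **Packet C** (0.7h; may use `S_BAR`, `S_A`, `S_N`): `Y = 0`.

Proof.  `k = sup Y < ∞` (`S_N`).  Suppose `k > 0`, let `0 < ε < k`, `q` any point.  For `R` large let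
`x = R • eb 0`.  On `closedBall x (R/8)`: `y₀ ≥ 7R/8 ≥ ‖y‖/2`, so `Y y ≤ ε` (`S_A` with `η = 1/2`).
`S := k - Y ≥ 0`, `L S = - g |∇Y|² ≤ 0`, `S ≥ k - ε` on `sphere x (R/8)`.  `g y = 0` for
`y ∈ ball x (4R)`, `y₀ > R`: there `‖y‖ ≤ 5R`, `u y ≥ α y₀ - δ ‖y‖ ≥ α R/2 ≥ a1` with
`δ = α/10` (`subp`).  `S_BAR` with radii `R/8`, `4R` at `q` (`R/2 ≤ ‖q - x‖ ≤ 3R/2`):
`k - Y q ≥ (k - ε) (2/(3R) - 1/(4R))/(8/R) ≥ (k - ε)/32`.  Taking the supremum over `q`: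
`k ≤ k - (k - ε)/32`: contradiction. -/
def S_C : Prop := ∀ (u Y g : E3 → ℝ) (a0 a1 α β κp κm M : ℝ), YSol u Y g a0 a1 α β κp κm M →
  ∀ x, Y x = 0

/-! ## The slope `β` is positive -/

/-- **Packet B0A** (1h): one-variable analysis for `β = 0`.

Proof.  `F = Fp f a0` is `C²`, nondecreasing, `F = 0` on `(-∞, 0]` (`f` vanishes on `(-∞, a0]` and on
`(-∞, 0]`, so also between `a0` and `v` for `v ≤ 0`).  `c0 = sSup {v | F v = 0}`: `0 ≤ c0 < a1` as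
`F a1 > 0`, `F c0 = 0`.  `f² ≤ Λ² · 2 F` where `Λ² ≥ sup |f'|` : `(Λ² 2 F - f²)' = 2 f (Λ² - f') ≥ 0`
and it vanishes at `a0`, and for `v ≤ a0` both vanish; here `f' ` is bounded as `f` is `C¹` and
constant `0` outside `[a0, a1]`.  `G v = ∫_{a1}^v 1/√(2F)` for `v > c0` (and anything for
`v ≤ c0`); it is `C²` at `v > c0` since `2F > 0` near `v`.  `√(2F)` has derivative `f/√(2F) ≤ Λ` on
`(c0, ∞)` and vanishes at `c0`, so `√(2 F v) ≤ Λ (v - c0)`, hence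
`G v ≤ -(1/Λ) log((a1 - c0)/(v - c0))` for `c0 < v < a1`, which tends to `-∞`.  The last two:
`√(2F v) ≤ √(2F a1)` with equality for `v ≥ a1`. -/
def S_B0A : Prop := ∀ (f : ℝ → ℝ) (a0 a1 : ℝ), Nonl f a0 a1 → (∀ v, v ≤ 0 → f v = 0) →
  0 < Fp f a0 a1 → ∃ (c0 Λ : ℝ) (G : ℝ → ℝ), 0 ≤ c0 ∧ c0 < a1 ∧ 0 < Λ ∧
    (∀ v, v ≤ c0 → Fp f a0 v = 0) ∧ (∀ v, c0 < v → 0 < Fp f a0 v) ∧
    (∀ v, f v ≤ Λ * √(2 * Fp f a0 v)) ∧ (∀ v, c0 < v → ContDiffAt ℝ 2 G v) ∧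
    (∀ v, c0 < v → HasDerivAt G (1 / √(2 * Fp f a0 v)) v) ∧ Tendsto G (𝓝[>] c0) atBot ∧
    (∀ v, c0 < v → G v ≤ G a1 + (v - a1) / √(2 * Fp f a0 a1)) ∧
    ∀ v, a1 ≤ v → G v = G a1 + (v - a1) / √(2 * Fp f a0 a1)

/-- **Packet B0S** (0.9h; may use `S_MP`): the strip barrier.

Proof.  `μ = 2M + 1`.  Let `ε, X, δ, ρ > 0` with `4 δ ≤ μ e^{-μX}`, `δ ρ² ≥ 1`, and
`Ω = {x ∈ P | ε < E x, x₀ < X, x₁² + x₂² < ρ²}` (bounded as `0 < x₀ < X`; open as `E` is continuous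
on the open `P`), `v = 1 - e^{-μ x₀} + δ (x₁² + x₂²) + e^{-μX} + ε - E`.
`closure Ω ⊆ {x ∈ P | ε ≤ E x}` (closed by hypothesis), so `v` is continuous there.  On the frontier
one of `E x = ε`, `x₀ = X`, `x₁² + x₂² = ρ²` holds; in each case `v ≥ 0` (`E ≤ 1`, `x₀ > 0`).
`L v = -μ² e^{-μx₀} + 2 g μ e^{-μx₀} + 4δ - L E ≤ -μ e^{-μX} + 4 δ ≤ 0` as `μ - 2g ≥ 1`.
`S_MP`: `E ≤ 1 - e^{-μx₀} + δ (x₁² + x₂²) + e^{-μX} + ε` on `P` (trivial where `E ≤ ε`).  Let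
`δ → 0` (`ρ → ∞`), then `X → ∞`, `ε → 0`. -/
def S_B0S : Prop := ∀ (P : Set E3) (E g : E3 → ℝ) (M : ℝ), IsOpen P → (∀ x ∈ P, 0 < x 0) →
  (∀ x ∈ P, ContDiffAt ℝ 2 E x) → (∀ x ∈ P, E x ≤ 1) → (∀ x ∈ P, 0 ≤ g x ∧ g x ≤ M) →
  (∀ x ∈ P, 0 ≤ Δ E x + 2 * g x * pd 0 E x) →
  (∀ ε : ℝ, 0 < ε → IsClosed {x | x ∈ P ∧ ε ≤ E x}) →
  ∀ x ∈ P, E x ≤ 1 - Real.exp (-((2 * M + 1) * x 0))

/-- **Packet B0F** (1.2h; may use `S_B0A`, `S_B0S`, `S_PL`): `β = 0` is impossible.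

Proof.  `α² = 2 F(a1) > 0`, `√(2 F a1) = α`.  Take `c0, Λ, G` from `S_B0A`,
`P = {x | c0 < u x}`: open, `x₀ > 0` on `P` (`u ≤ 0 ≤ c0` if `x₀ ≤ 0`), nonempty (`subp` along the
axis: `u (R e₀) ≥ α R - (α/2) R > c0`).  On `P` let `Y₀ x = x₀ - G (u x)`.  `Y₀` is bounded below on
`P`: `G(u) ≤ G a1 + (u - a1)/α ≤ x₀ + const` (`up`).  `m₀ = inf_P Y₀`, `E = exp(-λ (Y₀ - m₀)) ≤ 1`
with `λ = Λ`, `g x = f (u x)/√(2 F(u x)) ∈ [0, Λ]` on `P`.  As in packet YSOL (`Γ = √(2F)`,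
`Γ' = f/Γ`): `L Y₀ = g |∇Y₀|²` on `P` and `L E = λ E |∇Y₀|² (λ - g) ≥ 0`.
Closedness of `{x ∈ P | ε ≤ E x}`: `E x = exp(-λ x₀) exp(λ (G(u x) + m₀)) ≤ exp(λ (G(u x) + m₀))`
tends to `0` as `u x ↓ c0`, so there is `ε' > 0` with `{x ∈ P | ε ≤ E x} ⊆ {c0 + ε' ≤ u x} ⊆ P`.
`S_B0S`: `E x ≤ 1 - exp(-μ x₀)` on `P`, i.e. `λ (Y₀ x - m₀) ≥ - log(1 - exp(-μ x₀)) > 0`.
Let `κ = a1 - α G a1 - α m₀`, `W x = α x₀ - u x + κ`: superharmonic, `α (Y₀ - m₀) ≥ W` on `P`, with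
equality if `u x ≥ a1` (`> c0`).  Choose `s > 0` with `α s - a1 + κ ≥ 1`;
`m = min 1 (-(α/λ) log(1 - exp(-μ s))) > 0`.  On `{x₀ = s}`: `W ≥ m` (if `u x ≥ a1`,
`W = α (Y₀ - m₀)`; if `u x < a1`, `W ≥ α s - a1 + κ ≥ 1`).  `W ≥ κ` on `{x₀ ≥ 0}` (`up`), so `S_PL`
gives `W ≥ m` on `{x₀ ≥ s}`.  So `Y₀ - m₀ ≥ m/α` on `P ∩ {x₀ ≥ s}`, and for `x ∈ P`, `x₀ ≤ s`:
`Y₀ x - m₀ ≥ -(1/λ) log(1 - exp(-μ s)) ≥ m/α`.  This contradicts `inf_P (Y₀ - m₀) = 0`. -/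
def S_B0F : Prop := ∀ (f : ℝ → ℝ) (u : E3 → ℝ) (a0 a1 α K : ℝ), Sol f u a0 a1 α 0 K →
  (∀ v, v ≤ 0 → f v = 0) → α ^ 2 = 2 * Fp f a0 a1 → False

/-! ## Setup -/

/-- **Packet SETUP** (0.8h; may use `S_LEMS`).

Proof.  `a0 < a1` with `f = 0` outside `[a0, a1]` (compact support).  `K > 0` can be enlarged.
`A = {a | ∀ x, 0 ≤ x₀ → u x ≤ a x₀}`: closed, contains `K` (`u x ≤ u (x - x₀ • eb 0) + K x₀ ≤ K x₀`),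
all its elements are `> 0` (`u z > 0` for some `z`, necessarily `z₀ > 0`), so `α = sInf A ∈ A`,
`α > 0`.  `B = {b ≥ 0 | ∀ x, x₀ ≤ 0 → u x ≤ b x₀}`: closed, contains `0`, bounded above (take
`x = - eb 0`), `β = sSup B ∈ B`; if the second alternative holds then `β ≥ b > 0`.
`subp`: `S_LEMS` for `w = α x₀ - u` (Lipschitz with constant `α + K`; if `c x₀ ≤ w` on
`{x₀ ≥ 0}` with `c > 0` then `α - c ∈ A`).  `subm`: `S_LEMS` for `w x = β x̄₀ - u x̄`,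
`x̄ = refl 0 x` (`HD2.reflect`; if `c x₀ ≤ w x` for `x₀ ≥ 0` then `β + c ∈ B`);
`‖refl 0 x‖ = ‖x‖`. -/
def S_SETUP : Prop := ∀ (f : ℝ → ℝ) (u : E3 → ℝ), ContDiff ℝ 1 f → HasCompactSupport f →
  (∀ v, 0 ≤ f v) → ContDiff ℝ 2 u → (∀ x, Δ u x = f (u x)) →
  (∃ K : ℝ, ∀ x y, |u x - u y| ≤ K * ‖x - y‖) → (∀ x : E3, x 0 ≤ 0 → u x ≤ 0) → (∃ x, 0 < u x) →
  ((∀ v, v ≤ 0 → f v = 0) ∨ ∃ b : ℝ, 0 < b ∧ ∀ x : E3, x 0 ≤ 0 → u x ≤ b * x 0) →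
  ∃ a0 a1 α β K, Sol f u a0 a1 α β K

end Pool.Agent.Helper30.BG
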