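import Mathlib

/-!
For MP_66e6f4_an, project BG: calculus of the Laplacian and of the partial derivatives on `ℝ³`.
-/

open InnerProductSpace Metric Set Filter Topology
open scoped ContDiff Laplacian

namespace Pool.Agent.Helper30.BG

/-- three-space -/
abbrev E3 := EuclideanSpace ℝ (Fin 3)

/-- the basis vectors -/
noncomputable def eb (i : Fin 3) : E3 := EuclideanSpace.single i 1

/-- the partial derivative `∂_i v (x)` -/
noncomputable def pd (i : Fin 3) (v : E3 → ℝ) (x : E3) : ℝ := fderiv ℝ v x (eb i)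

theorem eb_apply (i j : Fin 3) : eb i j = if j = i then 1 else 0 := by
  unfold eb; rw [PiLp.single_apply]

theorem norm_eb (i : Fin 3) : ‖eb i‖ = 1 := by
  unfold eb; rw [PiLp.norm_single]; simp

theorem lap_eq {v : E3 → ℝ} {x : E3} (hv : ContDiffAt ℝ 2 v x) :
    Δ v x = ∑ i, fderiv ℝ (pd i v) x (eb i) := by
  rw [laplacian_eq_iteratedFDeriv_orthonormalBasis _ (EuclideanSpace.basisFun (Fin 3) ℝ)]
  refine Finset.sum_congr rfl fun i _ => ?_
  rw [iteratedFDeriv_two_apply, Matrix.cons_val_zero, Matrix.cons_val_one]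
  have h1 : DifferentiableAt ℝ (fderiv ℝ v) x :=
    (hv.fderiv_right (m := 1) (by norm_num)).differentiableAt (by norm_num)
  have h2 : fderiv ℝ (pd i v) x = (fderiv ℝ (fderiv ℝ v) x).flip (eb i) := by
    have h3 := h1.hasFDerivAt.clm_apply (hasFDerivAt_const (eb i) x)
    have h4 : HasFDerivAt (pd i v) _ x := h3
    rw [h4.fderiv]
    ext w
    simp
  rw [h2]
  simp [eb]

/-- `v` is `C²` at `x`, with first partials `p` and Laplacian `l` there. -/
structure HD2 (v : E3 → ℝ) (x : E3) (p : Fin 3 → ℝ) (l : ℝ) : Prop where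
  cd : ContDiffAt ℝ 2 v x
  pd : ∀ i, pd i v x = p i
  lap : Δ v x = l

theorem HD2.mk' {v : E3 → ℝ} {x : E3} (h : ContDiffAt ℝ 2 v x) :
    HD2 v x (fun i => BG.pd i v x) (Δ v x) := ⟨h, fun _ => rfl, rfl⟩

theorem HD2.congr {v w : E3 → ℝ} {x : E3} {p : Fin 3 → ℝ} {l : ℝ} (h : HD2 v x p l)
    (hw : w =ᶠ[𝓝 x] v) : HD2 w x p l := by
  refine ⟨h.cd.congr_of_eventuallyEq hw, fun i => ?_, ?_⟩
  · rw [← h.pd i, BG.pd, BG.pd, hw.fderiv_eq]
  · rw [← h.lap, (laplacian_congr_nhds hw).self_of_nhds]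

theorem HD2.of_eq {v : E3 → ℝ} {x : E3} {p q : Fin 3 → ℝ} {l m : ℝ} (h : HD2 v x p l)
    (h1 : p = q) (h2 : l = m) : HD2 v x q m := by subst h1; subst h2; exact h

theorem HD2.const (c : ℝ) (x : E3) : HD2 (fun _ => c) x 0 0 := by
  refine ⟨contDiffAt_const, fun i => ?_, ?_⟩
  · simp [BG.pd]
  · rw [laplacian_const]; rfl

theorem HD2.coord (i : Fin 3) (x : E3) : HD2 (fun y => y i) x (Pi.single i 1) 0 := by
  have e : (fun y : E3 => y i) = (EuclideanSpace.proj i : E3 →L[ℝ] ℝ) := by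
    ext y; simp
  have hp : ∀ j, BG.pd j (fun y : E3 => y i) = fun _ => (Pi.single i (1 : ℝ) : Fin 3 → ℝ) j := by
    intro j
    funext y
    rw [BG.pd, e, ContinuousLinearMap.fderiv]
    simp [eb, Pi.single_apply, eq_comm]
  have hc : ContDiffAt ℝ 2 (fun y : E3 => y i) x := by
    rw [e]; exact (ContinuousLinearMap.contDiff _).contDiffAt
  refine ⟨hc, fun j => by rw [hp], ?_⟩
  rw [lap_eq hc]
  refine Finset.sum_eq_zero fun j _ => ?_
  rw [hp]
  simp

theorem HD2.add {v w : E3 → ℝ} {x : E3} {p q : Fin 3 → ℝ} {l m : ℝ} (hv : HD2 v x p l)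
    (hw : HD2 w x q m) : HD2 (fun y => v y + w y) x (p + q) (l + m) := by
  refine ⟨hv.cd.add hw.cd, fun i => ?_, ?_⟩
  · have h1 := hv.cd.differentiableAt (by norm_num)
    have h2 := hw.cd.differentiableAt (by norm_num)
    have h3 : fderiv ℝ (fun y => v y + w y) x = fderiv ℝ v x + fderiv ℝ w x := fderiv_fun_add h1 h2
    rw [BG.pd, h3, Pi.add_apply, ← hv.pd, ← hw.pd]; rfl
  · have h3 : Δ (fun y => v y + w y) x = Δ v x + Δ w x := hv.cd.laplacian_add hw.cd
    rw [h3, hv.lap, hw.lap]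

theorem HD2.const_mul {v : E3 → ℝ} {x : E3} {p : Fin 3 → ℝ} {l : ℝ} (c : ℝ) (hv : HD2 v x p l) :
    HD2 (fun y => c * v y) x (c • p) (c * l) := by
  refine ⟨contDiffAt_const.mul hv.cd, fun i => ?_, ?_⟩
  · have h1 := hv.cd.differentiableAt (by norm_num)
    have h3 : fderiv ℝ (fun y => c * v y) x = c • fderiv ℝ v x := fderiv_const_mul h1 c
    rw [BG.pd, h3, Pi.smul_apply, ← hv.pd]; rfl
  · have h3 : Δ (fun y => c * v y) x = c * Δ v x := laplacian_smul c hv.cd
    rw [h3, hv.lap]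

theorem HD2.neg {v : E3 → ℝ} {x : E3} {p : Fin 3 → ℝ} {l : ℝ} (hv : HD2 v x p l) :
    HD2 (fun y => - v y) x (-p) (-l) := by
  have := hv.const_mul (-1)
  simp only [neg_one_mul, neg_smul, one_smul] at this
  exact this

theorem HD2.sub {v w : E3 → ℝ} {x : E3} {p q : Fin 3 → ℝ} {l m : ℝ} (hv : HD2 v x p l)
    (hw : HD2 w x q m) : HD2 (fun y => v y - w y) x (p - q) (l - m) := by
  have := hv.add hw.neg
  simp only [← sub_eq_add_neg] at this
  exact this

theorem HD2.add_const {v : E3 → ℝ} {x : E3} {p : Fin 3 → ℝ} {l : ℝ} (hv : HD2 v x p l) (c : ℝ) :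
    HD2 (fun y => v y + c) x p l := by
  have := hv.add (HD2.const c x)
  simpa using this

theorem HD2.sub_const {v : E3 → ℝ} {x : E3} {p : Fin 3 → ℝ} {l : ℝ} (hv : HD2 v x p l) (c : ℝ) :
    HD2 (fun y => v y - c) x p l := by
  have := hv.sub (HD2.const c x)
  simpa using this

theorem HD2.mul {v w : E3 → ℝ} {x : E3} {p q : Fin 3 → ℝ} {l m : ℝ} (hv : HD2 v x p l)
    (hw : HD2 w x q m) : HD2 (fun y => v y * w y) x (fun i => p i * w x + v x * q i)
      (l * w x + 2 * ∑ i, p i * q i + v x * m) := by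
  have hc : ContDiffAt ℝ 2 (fun y => v y * w y) x := hv.cd.mul hw.cd
  have key : ∀ i, BG.pd i (fun y => v y * w y) =ᶠ[𝓝 x]
      fun y => BG.pd i v y * w y + v y * BG.pd i w y := by
    intro i
    filter_upwards [hv.cd.eventually (by simp), hw.cd.eventually (by simp)] with y h1 h2
    have h3 : fderiv ℝ (fun y => v y * w y) y = v y • fderiv ℝ w y + w y • fderiv ℝ v y :=
      fderiv_fun_mul (h1.differentiableAt (by norm_num)) (h2.differentiableAt (by norm_num))
    rw [BG.pd, h3]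
    simp [BG.pd]
    ring
  have hdpd : ∀ {f : E3 → ℝ} (_ : ContDiffAt ℝ 2 f x) (i : Fin 3),
      DifferentiableAt ℝ (BG.pd i f) x := by
    intro f hf i
    have h1 : DifferentiableAt ℝ (fderiv ℝ f) x :=
      (hf.fderiv_right (m := 1) (by norm_num)).differentiableAt (by norm_num)
    exact h1.clm_apply (differentiableAt_const _)
  refine ⟨hc, fun i => ?_, ?_⟩
  · rw [(key i).self_of_nhds]; beta_reduce; rw [hv.pd, hw.pd]
  · rw [lap_eq hc]
    have h5 : ∀ i, fderiv ℝ (BG.pd i (fun y => v y * w y)) x (eb i) =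
        fderiv ℝ (BG.pd i v) x (eb i) * w x + 2 * (p i * q i) +
          v x * fderiv ℝ (BG.pd i w) x (eb i) := by
      intro i
      rw [(key i).fderiv_eq]
      have a1 := hv.cd.differentiableAt (by norm_num)
      have a2 := hw.cd.differentiableAt (by norm_num)
      have a3 := ((hdpd hv.cd i).hasFDerivAt.mul a2.hasFDerivAt).add
        (a1.hasFDerivAt.mul (hdpd hw.cd i).hasFDerivAt)
      have a4 : HasFDerivAt (fun y => BG.pd i v y * w y + v y * BG.pd i w y) _ x := a3
      rw [a4.fderiv]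
      have b1 : fderiv ℝ w x (eb i) = q i := hw.pd i
      have b2 : fderiv ℝ v x (eb i) = p i := hv.pd i
      simp [b1, b2, hv.pd, hw.pd]
      ring
    simp only [h5]
    rw [Finset.sum_add_distrib, Finset.sum_add_distrib, ← Finset.sum_mul, ← Finset.mul_sum,
      ← Finset.mul_sum, ← lap_eq hv.cd, ← lap_eq hw.cd, hv.lap, hw.lap]

/-- Chain rule. -/
theorem HD2.comp {v : E3 → ℝ} {x : E3} {p : Fin 3 → ℝ} {l : ℝ} (hv : HD2 v x p l)
    {φ φ' : ℝ → ℝ} {φ'' : ℝ} (hφ : ContDiffAt ℝ 2 φ (v x))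
    (h1 : ∀ᶠ t in 𝓝 (v x), HasDerivAt φ (φ' t) t) (h2 : HasDerivAt φ' φ'' (v x)) :
    HD2 (fun y => φ (v y)) x (φ' (v x) • p) (φ'' * ∑ i, p i ^ 2 + φ' (v x) * l) := by
  have hc : ContDiffAt ℝ 2 (fun y => φ (v y)) x := hφ.comp x hv.cd
  have key : ∀ i, BG.pd i (fun y => φ (v y)) =ᶠ[𝓝 x] fun y => φ' (v y) * BG.pd i v y := by
    intro i
    filter_upwards [hv.cd.eventually (by simp), hv.cd.continuousAt.eventually h1] with y a1 a2
    have a3 : HasFDerivAt (fun y => φ (v y)) (φ' (v y) • fderiv ℝ v y) y :=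
      a2.comp_hasFDerivAt y (a1.differentiableAt (by norm_num)).hasFDerivAt
    rw [BG.pd, a3.fderiv]
    simp [BG.pd]
  have hdpd : ∀ {f : E3 → ℝ} (_ : ContDiffAt ℝ 2 f x) (i : Fin 3),
      DifferentiableAt ℝ (BG.pd i f) x := by
    intro f hf i
    have h1 : DifferentiableAt ℝ (fderiv ℝ f) x :=
      (hf.fderiv_right (m := 1) (by norm_num)).differentiableAt (by norm_num)
    exact h1.clm_apply (differentiableAt_const _)
  refine ⟨hc, fun i => ?_, ?_⟩
  · rw [(key i).self_of_nhds]; beta_reduce; rw [hv.pd]; rfl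
  · rw [lap_eq hc]
    have h5 : ∀ i, fderiv ℝ (BG.pd i (fun y => φ (v y))) x (eb i) =
        φ'' * p i ^ 2 + φ' (v x) * fderiv ℝ (BG.pd i v) x (eb i) := by
      intro i
      rw [(key i).fderiv_eq]
      have a1 := hv.cd.differentiableAt (by norm_num)
      have a2 : HasFDerivAt (fun y => φ' (v y)) (φ'' • fderiv ℝ v x) x :=
        h2.comp_hasFDerivAt x a1.hasFDerivAt
      have a3 := a2.mul (hdpd hv.cd i).hasFDerivAt
      have a4 : HasFDerivAt (fun y => φ' (v y) * BG.pd i v y) _ x := a3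
      rw [a4.fderiv]
      have b2 : fderiv ℝ v x (eb i) = p i := hv.pd i
      simp [b2, hv.pd]
      ring
    simp only [h5]
    rw [Finset.sum_add_distrib, ← Finset.mul_sum, ← Finset.mul_sum, ← lap_eq hv.cd, hv.lap]

/-- Affine changes of variables `y ↦ a • y + b` : partials multiply by `a`, Laplacian by `a²`. -/
theorem HD2.affine {v : E3 → ℝ} {a : ℝ} {b x : E3} {p : Fin 3 → ℝ} {l : ℝ}
    (hv : HD2 v (a • x + b) p l) : HD2 (fun y => v (a • y + b)) x (a • p) (a ^ 2 * l) := by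
  have hA : ∀ y : E3, HasFDerivAt (fun y : E3 => a • y + b) (a • ContinuousLinearMap.id ℝ E3) y :=
    fun y => ((hasFDerivAt_id y).const_smul a).add_const b
  have hcA : ContDiff ℝ 2 (fun y : E3 => a • y + b) := by fun_prop
  have hc : ContDiffAt ℝ 2 (fun y => v (a • y + b)) x := hv.cd.comp x hcA.contDiffAt
  have ht : Tendsto (fun y : E3 => a • y + b) (𝓝 x) (𝓝 (a • x + b)) :=
    hcA.continuous.continuousAt
  have key : ∀ i, BG.pd i (fun y => v (a • y + b)) =ᶠ[𝓝 x] fun y => a * BG.pd i v (a • y + b) := by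
    intro i
    filter_upwards [ht.eventually (hv.cd.eventually (by simp))] with y a1
    have a3 : HasFDerivAt (fun y => v (a • y + b))
        ((fderiv ℝ v (a • y + b)).comp (a • ContinuousLinearMap.id ℝ E3)) y :=
      (a1.differentiableAt (by norm_num)).hasFDerivAt.comp y (hA y)
    rw [BG.pd, a3.fderiv]
    simp [BG.pd]
  refine ⟨hc, fun i => ?_, ?_⟩
  · rw [(key i).self_of_nhds]; beta_reduce; rw [hv.pd]; rfl
  · rw [lap_eq hc]
    have h5 : ∀ i, fderiv ℝ (BG.pd i (fun y => v (a • y + b))) x (eb i) =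
        a ^ 2 * fderiv ℝ (BG.pd i v) (a • x + b) (eb i) := by
      intro i
      rw [(key i).fderiv_eq]
      have h1 : DifferentiableAt ℝ (fderiv ℝ v) (a • x + b) :=
        (hv.cd.fderiv_right (m := 1) (by norm_num)).differentiableAt (by norm_num)
      have h2 : DifferentiableAt ℝ (BG.pd i v) (a • x + b) :=
        h1.clm_apply (differentiableAt_const _)
      have a3 : HasFDerivAt (fun y => a * BG.pd i v (a • y + b))
        (a • (fderiv ℝ (BG.pd i v) (a • x + b)).comp (a • ContinuousLinearMap.id ℝ E3)) x :=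
        (h2.hasFDerivAt.comp x (hA x)).const_mul a
      rw [a3.fderiv]
      simp
      ring
    simp only [h5]
    rw [← Finset.mul_sum, ← lap_eq hv.cd, hv.lap]

/-- The reflection `x ↦ (2 s - x₀, x₁, x₂)` in the plane `{x₀ = s}`. -/
noncomputable def refl (s : ℝ) (x : E3) : E3 := x + (2 * (s - x 0)) • eb 0

theorem refl_zero (s : ℝ) (x : E3) : refl s x 0 = 2 * s - x 0 := by
  simp [refl, eb_apply]; ring

theorem refl_one (s : ℝ) (x : E3) : refl s x 1 = x 1 := by simp [refl, eb_apply]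

theorem refl_two (s : ℝ) (x : E3) : refl s x 2 = x 2 := by simp [refl, eb_apply]

theorem refl_refl (s : ℝ) (x : E3) : refl s (refl s x) = x := by
  ext i
  fin_cases i
  · change refl s (refl s x) 0 = x 0
    rw [refl_zero, refl_zero]; ring
  · change refl s (refl s x) 1 = x 1
    rw [refl_one, refl_one]
  · change refl s (refl s x) 2 = x 2
    rw [refl_two, refl_two]

theorem norm_sq_eq (x : E3) : ‖x‖ ^ 2 = x 0 ^ 2 + x 1 ^ 2 + x 2 ^ 2 := by
  rw [EuclideanSpace.norm_sq_eq, Fin.sum_univ_three]; simp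

theorem dist_refl (s : ℝ) (x y : E3) : ‖refl s x - refl s y‖ = ‖x - y‖ := by
  have h : ‖refl s x - refl s y‖ ^ 2 = ‖x - y‖ ^ 2 := by
    rw [norm_sq_eq, norm_sq_eq]
    simp only [PiLp.sub_apply, refl_zero, refl_one, refl_two]
    ring
  nlinarith [norm_nonneg (refl s x - refl s y), norm_nonneg (x - y),
    sq_nonneg (‖refl s x - refl s y‖ - ‖x - y‖)]

theorem HD2.reflect {v : E3 → ℝ} {s : ℝ} {x : E3} {p : Fin 3 → ℝ} {l : ℝ}
    (hv : HD2 v (refl s x) p l) :
    HD2 (fun y => v (refl s y)) x (fun i => if i = 0 then - p i else p i) l := by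
  set A : E3 →L[ℝ] E3 := ContinuousLinearMap.id ℝ E3 -
    (2 : ℝ) • (EuclideanSpace.proj (0 : Fin 3) : E3 →L[ℝ] ℝ).smulRight (eb 0) with hAdef
  have hAe : ∀ i, A (eb i) = if i = 0 then - eb i else eb i := by
    intro i
    by_cases hi : i = 0
    · subst hi
      simp [hAdef, eb_apply]
      module
    · have : eb i 0 = 0 := by rw [eb_apply, if_neg (fun h => hi h.symm)]
      simp [hAdef, this, hi]
  have hR : ∀ y, refl s y = A y + (2 * s) • eb 0 := by
    intro y
    simp [refl, hAdef]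
    module
  have hA : ∀ y : E3, HasFDerivAt (refl s) A y := by
    intro y
    have := (A.hasFDerivAt (x := y)).add_const ((2 * s) • eb 0)
    refine this.congr_of_eventuallyEq (Eventually.of_forall fun z => hR z)
  have hcA : ContDiff ℝ 2 (refl s) := by
    have : refl s = fun y => A y + (2 * s) • eb 0 := funext hR
    rw [this]; fun_prop
  have hc : ContDiffAt ℝ 2 (fun y => v (refl s y)) x := hv.cd.comp x hcA.contDiffAt
  have ht : Tendsto (refl s) (𝓝 x) (𝓝 (refl s x)) := hcA.continuous.continuousAt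
  set σ : Fin 3 → ℝ := fun i => if i = 0 then -1 else 1 with hσ
  have hσ2 : ∀ i, σ i * σ i = 1 := by intro i; simp only [hσ]; split_ifs <;> norm_num
  have hAe' : ∀ i, A (eb i) = σ i • eb i := by
    intro i; rw [hAe]; simp only [hσ]; split_ifs <;> simp
  have key : ∀ i, BG.pd i (fun y => v (refl s y)) =ᶠ[𝓝 x]
      fun y => σ i * BG.pd i v (refl s y) := by
    intro i
    filter_upwards [ht.eventually (hv.cd.eventually (by simp))] with y a1
    have a3 : HasFDerivAt (fun y => v (refl s y)) ((fderiv ℝ v (refl s y)).comp A) y :=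
      (a1.differentiableAt (by norm_num)).hasFDerivAt.comp y (hA y)
    rw [BG.pd, a3.fderiv, ContinuousLinearMap.comp_apply, hAe', map_smul]
    rfl
  refine ⟨hc, fun i => ?_, ?_⟩
  · rw [(key i).self_of_nhds]; beta_reduce; rw [hv.pd]
    simp only [hσ]
    split_ifs <;> ring
  · rw [lap_eq hc]
    have h5 : ∀ i, fderiv ℝ (BG.pd i (fun y => v (refl s y))) x (eb i) =
        fderiv ℝ (BG.pd i v) (refl s x) (eb i) := by
      intro i
      rw [(key i).fderiv_eq]
      have h1 : DifferentiableAt ℝ (fderiv ℝ v) (refl s x) :=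
        (hv.cd.fderiv_right (m := 1) (by norm_num)).differentiableAt (by norm_num)
      have h2 : DifferentiableAt ℝ (BG.pd i v) (refl s x) :=
        h1.clm_apply (differentiableAt_const _)
      have a3 : HasFDerivAt (fun y => σ i * BG.pd i v (refl s y))
        (σ i • (fderiv ℝ (BG.pd i v) (refl s x)).comp A) x :=
        (h2.hasFDerivAt.comp x (hA x)).const_mul (σ i)
      rw [a3.fderiv]
      simp only [smul_apply, ContinuousLinearMap.comp_apply, hAe', map_smul,
        smul_eq_mul]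
      rw [← mul_assoc, hσ2, one_mul]
    simp only [h5]
    rw [← lap_eq hv.cd, hv.lap]

theorem HD2.normSq (c x : E3) : HD2 (fun y => ‖y - c‖ ^ 2) x (fun i => 2 * (x i - c i)) 6 := by
  have h := fun i : Fin 3 => ((HD2.coord i x).sub_const (c i)).mul ((HD2.coord i x).sub_const (c i))
  have h2 := ((h 0).add (h 1)).add (h 2)
  refine (h2.congr (Eventually.of_forall fun y => ?_)).of_eq ?_ ?_
  · beta_reduce
    rw [norm_sq_eq]
    simp only [PiLp.sub_apply]
    ring
  · funext i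
    fin_cases i <;> simp <;> ring
  · simp [Fin.sum_univ_three]
    norm_num

/-- The Newton kernel `1/|y - c|` is harmonic away from `c`. -/
theorem HD2.newton {c x : E3} (hx : x ≠ c) :
    HD2 (fun y => ‖y - c‖⁻¹) x (fun i => - ((x i - c i) * (‖x - c‖ ^ 3)⁻¹)) 0 := by
  have hpos : 0 < ‖x - c‖ := norm_pos_iff.2 (sub_ne_zero.2 hx)
  have hs : 0 < ‖x - c‖ ^ 2 := by positivity
  have h1 : ∀ t : ℝ, 0 < t → HasDerivAt (fun t => (√t)⁻¹) (-(1 / 2) * ((√t)⁻¹ * t⁻¹)) t := by
    intro t ht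
    have a1 := (Real.hasDerivAt_sqrt ht.ne').inv (Real.sqrt_pos.2 ht).ne'
    refine a1.congr_deriv ?_
    rw [Real.sq_sqrt ht.le]
    field_simp
  have h2 : HasDerivAt (fun t : ℝ => -(1 / 2) * ((√t)⁻¹ * t⁻¹))
      (3 / 4 * ((√(‖x - c‖ ^ 2))⁻¹ * ((‖x - c‖ ^ 2) ^ 2)⁻¹)) (‖x - c‖ ^ 2) := by
    have a1 := ((h1 _ hs).mul (hasDerivAt_inv hs.ne')).const_mul (-(1 / 2))
    refine a1.congr_deriv ?_
    field_simp
    ring
  have hcd : ContDiffAt ℝ 2 (fun t : ℝ => (√t)⁻¹) (‖x - c‖ ^ 2) :=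
    (Real.contDiffAt_sqrt hs.ne').inv (Real.sqrt_pos.2 hs).ne'
  have h3 := (HD2.normSq c x).comp hcd
    (by filter_upwards [isOpen_Ioi.mem_nhds hs] with t ht using h1 t ht) h2
  refine (h3.congr (Eventually.of_forall fun y => ?_)).of_eq ?_ ?_
  · beta_reduce
    rw [Real.sqrt_sq (norm_nonneg _)]
  · funext i
    rw [Pi.smul_apply, smul_eq_mul, Real.sqrt_sq hpos.le]
    field_simp
  · have e : ∑ i, (2 * (x i - c i)) ^ 2 = 4 * ‖x - c‖ ^ 2 := by
      rw [norm_sq_eq, Fin.sum_univ_three]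
      simp only [PiLp.sub_apply]
      ring
    rw [e, Real.sqrt_sq hpos.le]
    field_simp
    ring

/-- The exponential `exp (μ y₀)`. -/
theorem HD2.expCoord (μ : ℝ) (x : E3) :
    HD2 (fun y => Real.exp (μ * y 0)) x (fun i => if i = 0 then μ * Real.exp (μ * x 0) else 0)
      (μ ^ 2 * Real.exp (μ * x 0)) := by
  have h := ((HD2.coord 0 x).const_mul μ).comp (φ := Real.exp) (φ' := Real.exp)
    (φ'' := Real.exp (μ * x 0)) Real.contDiff_exp.contDiffAt
    (Eventually.of_forall fun t => Real.hasDerivAt_exp t) (Real.hasDerivAt_exp _)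
  refine h.of_eq ?_ ?_
  · funext i
    fin_cases i <;> simp; ring
  · simp [Fin.sum_univ_three]
    ring

/-- The polynomial barrier: with `t = T - y₀`, the function
`((y₁ - a)² + (y₂ - b)² - 2 t² + 3 R t) / R²` is harmonic. -/
noncomputable def pbar (T a b R : ℝ) (y : E3) : ℝ :=
  ((y 1 - a) ^ 2 + (y 2 - b) ^ 2 - 2 * (T - y 0) ^ 2 + 3 * R * (T - y 0)) / R ^ 2

theorem HD2.pbar {T a b R : ℝ} (x : E3) :
    HD2 (BG.pbar T a b R) x (fun i => if i = 0 then (4 * (T - x 0) - 3 * R) / R ^ 2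
      else if i = 1 then 2 * (x 1 - a) / R ^ 2 else 2 * (x 2 - b) / R ^ 2) 0 := by
  have h := fun (i : Fin 3) (c : ℝ) => ((HD2.coord i x).sub_const c).mul ((HD2.coord i x).sub_const c)
  have h2 := ((((h 1 a).add (h 2 b)).add ((h 0 T).const_mul (-2))).add
    (((HD2.coord 0 x).sub_const T).const_mul (-(3 * R)))).const_mul (R ^ 2)⁻¹
  refine (h2.congr (Eventually.of_forall fun y => ?_)).of_eq ?_ ?_
  · beta_reduce
    rw [BG.pbar]
    ring
  · funext i
    fin_cases i
    · simp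
      ring
    · simp
      ring
    · simp
      ring
  · simp [Fin.sum_univ_three]
    right
    norm_num

end Pool.Agent.Helper30.BG
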