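import Pool.Agent.Helper30.BG.Goals

open InnerProductSpace Metric Set Filter Topology MeasureTheory
open scoped ContDiff Laplacian Gradient

namespace Pool.Agent.Helper30.BG

theorem lip_of_grad {u : E3 → ℝ} (hu : ContDiff ℝ 2 u) {K : ℝ} (hK : ∀ x, ‖∇ u x‖ ≤ K)
    (x y : E3) : |u x - u y| ≤ K * ‖x - y‖ := by
  have h1 : ∀ z ∈ (univ : Set E3), DifferentiableAt ℝ u z := fun z _ =>
    (hu.differentiable (by norm_num)) z
  have h2 : ∀ z ∈ (univ : Set E3), ‖fderiv ℝ u z‖ ≤ K := by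
    intro z _
    have := hK z
    rw [gradient, LinearIsometryEquiv.norm_map] at this
    exact this
  have := convex_univ.norm_image_sub_le_of_norm_fderiv_le h1 h2 (mem_univ y) (mem_univ x)
  simpa [Real.norm_eq_abs] using this

theorem main (hSet : S_SETUP) (hBal : S_BAL) (hB0 : S_B0F) (hY : S_YSOL) (hC : S_C)
    {f : ℝ → ℝ} {u : E3 → ℝ} (hf : ContDiff ℝ 1 f) (hc : HasCompactSupport f)
    (h0 : ∀ v, 0 ≤ f v) (hu : ContDiff ℝ 2 u) (heq : ∀ x, Δ u x = f (u x))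
    (hK : ∃ K : ℝ, ∀ x, ‖∇ u x‖ ≤ K) (hneg : ∀ x : E3, x 0 ≤ 0 → u x ≤ 0) (hpos : ∃ x, 0 < u x)
    (halt : (∀ v, v ≤ 0 → f v = 0) ∨ ∃ b : ℝ, 0 < b ∧ ∀ x : E3, x 0 ≤ 0 → u x ≤ b * x 0) :
    ∃ V : ℝ → ℝ, ContDiff ℝ 2 V ∧ (∀ s, deriv (deriv V) s = f (V s)) ∧ StrictMono V ∧
      ∀ x, u x = V (x 0) := by
  obtain ⟨K, hK⟩ := hK
  obtain ⟨a0, a1, α, β, K', hs⟩ := hSet f u hf hc h0 hu heq ⟨K, lip_of_grad hu hK⟩ hneg hpos halt
  have hb := hBal f u a0 a1 α β K' hs
  have hβ : 0 < β := by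
    rcases hs.β_nn.eq_or_lt with h | h
    · exfalso
      subst h
      have h1 : ∀ v, v ≤ 0 → f v = 0 := by
        rcases hs.alt with h | h
        · exact absurd h (lt_irrefl _)
        · exact h
      exact hB0 f u a0 a1 α K' hs h1 (by rw [hb]; ring)
    · exact h
  obtain ⟨Y, g, κp, κm, M, m₀, V, hYs, hV2, hVd, hVm, hVu⟩ := hY f u a0 a1 α β K' hs hβ hb
  have hY0 := hC u Y g a0 a1 α β κp κm M hYs
  refine ⟨fun s => V (s - m₀), hV2.comp (contDiff_id.sub contDiff_const), ?_, ?_, ?_⟩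
  · intro s
    have e1 : deriv (fun s => V (s - m₀)) = fun s => deriv V (s - m₀) := by
      funext s; exact deriv_comp_sub_const ..
    rw [e1]
    have e2 : deriv (fun s => deriv V (s - m₀)) s = deriv (deriv V) (s - m₀) :=
      deriv_comp_sub_const ..
    rw [e2, hVd]
  · intro s t hst
    exact hVm (by linarith)
  · intro x
    rw [hVu x, hY0 x, sub_zero]

theorem fderiv_eq_zero_of_pd {v : E3 → ℝ} {x : E3} (h : ∀ i, pd i v x = 0) :
    fderiv ℝ v x = 0 := by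
  have hx : ∀ y : E3, y = y 0 • eb 0 + y 1 • eb 1 + y 2 • eb 2 := by
    intro y
    ext i
    fin_cases i <;> simp [eb_apply]
  ext y
  rw [hx y]
  have h0 : fderiv ℝ v x (eb 0) = 0 := h 0
  have h1 : fderiv ℝ v x (eb 1) = 0 := h 1
  have h2 : fderiv ℝ v x (eb 2) = 0 := h 2
  simp [h0, h1, h2]

/-- Liouville for nonnegative harmonic functions. -/
theorem liouville (hH : S_HARN) {w : E3 → ℝ} (hw : ContDiff ℝ 2 w) (h0 : ∀ x, Δ w x = 0)
    (hn : ∀ x, 0 ≤ w x) (x y : E3) : w x = w y := by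
  obtain ⟨C, hC1, hC⟩ := hH
  have key : ∀ z, fderiv ℝ w z = 0 := by
    intro z
    refine fderiv_eq_zero_of_pd fun i => ?_
    have h1 : ∀ r : ℝ, 0 < r → |pd i w z| ≤ C * w z / r := fun r hr =>
      (hC w z r hr hw (fun y _ => h0 y) (fun y _ => hn y)).2 i
    have h2 : Tendsto (fun r : ℝ => C * w z / r) atTop (𝓝 0) :=
      tendsto_const_nhds.div_atTop tendsto_id
    have h3 : |pd i w z| ≤ 0 := ge_of_tendsto h2 (by
      filter_upwards [eventually_gt_atTop 0] with r hr using h1 r hr)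
    exact abs_nonpos_iff.1 h3
  exact is_const_of_fderiv_eq_zero (hw.differentiable (by norm_num)) key x y

theorem neg_lap {u : E3 → ℝ} (hu : ContDiff ℝ 2 u) (x : E3) : Δ (fun y => - u y) x = - Δ u x :=
  (HD2.mk' hu.contDiffAt).neg.lap

theorem mainFull (hPL : S_PL) (hH : S_HARN) (hSet : S_SETUP) (hBal : S_BAL) (hB0 : S_B0F)
    (hY : S_YSOL) (hC : S_C)
    {f : ℝ → ℝ} {u : E3 → ℝ} (hf : ContDiff ℝ 1 f) (hc : HasCompactSupport f)
    (h0 : ∀ v, 0 ≤ f v) (hu : ContDiff ℝ 2 u) (heq : ∀ x, Δ u x = f (u x))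
    (hK : ∃ K : ℝ, ∀ x, ‖∇ u x‖ ≤ K) (hneg : ∀ x : E3, x 0 ≤ 0 → u x ≤ 0)
    (halt : (∀ v, v ≤ 0 → f v = 0) ∨ ∃ b : ℝ, 0 < b ∧ ∀ x : E3, x 0 ≤ 0 → u x ≤ b * x 0) :
    ∃ V : ℝ → ℝ, ContDiff ℝ 2 V ∧ (∀ s, deriv (deriv V) s = f (V s)) ∧
      (StrictMono V ∨ ∃ c, ∀ s, V s = c) ∧ ∀ x, u x = V (x 0) := by
  by_cases hpos : ∃ x, 0 < u x
  · obtain ⟨V, h1, h2, h3, h4⟩ := main hSet hBal hB0 hY hC hf hc h0 hu heq hK hneg hpos halt
    exact ⟨V, h1, h2, Or.inl h3, h4⟩
  · push Not at hpos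
    rcases halt with halt | ⟨b, hb, halt⟩
    · have hc' : ∀ x, u x = u 0 := by
        intro x
        have := liouville hH hu.neg (fun y => by
          change Δ (fun y => - u y) y = 0
          rw [neg_lap hu, heq, halt _ (hpos y), neg_zero]) (fun y => by
            have := hpos y
            simpa using this) x 0
        simpa using this
      refine ⟨fun _ => u 0, contDiff_const, fun s => ?_, Or.inr ⟨u 0, fun _ => rfl⟩, hc'⟩
      rw [halt _ (hpos 0)]
      simp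
    · exfalso
      have key : ∀ s : ℝ, 0 < s → b * s ≤ - u 0 := by
        intro s hs
        refine hPL (fun y => - u y) (-s) (b * s) hu.neg (fun x _ => ?_) (fun x hx => ?_)
          (fun δ hδ => ⟨0, fun x _ => ?_⟩) 0 ?_
        · rw [neg_lap hu, heq]
          have := h0 (u x)
          linarith
        · have := halt x (by rw [hx]; linarith)
          rw [hx] at this
          linarith
        · have := hpos x
          have h5 : 0 ≤ δ * ‖x‖ := by positivity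
          linarith
        · simp; linarith
      have h1 := key (- u 0 / b + 1) (by
        have : 0 ≤ - u 0 / b := div_nonneg (by linarith [hpos 0]) hb.le
        linarith)
      have h2 : b * (- u 0 / b + 1) = - u 0 + b := by field_simp
      linarith

end Pool.Agent.Helper30.BG
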